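import Pool.Agent.N757.SC.Cases2
import Pool.Agent.N757.SC.Cases3
import Pool.Agent.N757.SC.Cases4
import Pool.Agent.N757.SZ.Up

/-!
# Szpiro's inequality and the radical of `x ^ p - y ^ q`

`H = max (|c₄|³, c₆²)` is the naive height. Let `0 ≤ θ < 1`, `l = (1 - θ) / 6`, `0 < κ < 1`,
`N ≥ 1`, and let `(p, q)` be one of `(3,2), (4,2), (6,2), (3,3), (4,4), (6,6)`, the signatures
`(p, q, ∞)` of the arithmetic triangle groups with one cusp, or `(6,4)`. Equivalent are: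
(1) `|Δ| ^ (1 - θ) H ^ θ ≤ K N₆ ^ 6 H ^ δ` for all elliptic curves over `ℚ` and all `δ > 0`;
(2) `|Δ| ^ (1 - θ) H ^ θ ≤ K N ^ (6 + ε)` for all semistable ones with `|Δ| ≥ H ^ κ`;
(3) `K |x ^ p - y ^ q| ^ l M ^ (1 - 1/p - 1/q - l - ε) ≤ rad (x ^ p - y ^ q)` for all coprime
integers `x, y` with `x ^ p ≠ y ^ q` and `N ∣ x ^ p - y ^ q`, where `M = max (|x| ^ p, |y| ^ q)`.

For `θ = 0`: Szpiro's inequality for the semistable curves with `|Δ| ≥ H ^ κ` is equivalent to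
`rad (x³ - y³) ≥ K |x³ - y³| ^ (1/6) M ^ (1/6 - ε)`, to
`rad (x⁴ - y⁴) ≥ K |x⁴ - y⁴| ^ (1/6) M ^ (1/3 - ε)`, and so on.

Proof. (3) → (2), (1): Belyi maps. To a triple `(a, b, c)` with `a + b = c` one applies first
`(c ^ m - b ^ m, b ^ m, c ^ m)`, and then the covering of the curve with the signature `(p, q, ∞)`
by the line minus three points, which exists as the two groups are commensurable.
-/

set_option autoImplicit false

namespace Pool.Agent.Results.MP_d8bd92_nt.PowerDifferences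

open Finset

/-- `W` is a global minimal Weierstrass equation: `Δ ≠ 0`, and `|Δ|` is smallest among all integral
Weierstrass equations that are obtained from `W` by a change of variables over `ℚ` -/
def IsGlobalMinimal (W : WeierstrassCurve ℤ) : Prop :=
  W.Δ ≠ 0 ∧ ∀ W' : WeierstrassCurve ℤ,
    (∃ C : WeierstrassCurve.VariableChange ℚ,
      C • W.map (Int.castRingHom ℚ) = W'.map (Int.castRingHom ℚ)) → |W.Δ| ≤ |W'.Δ|

/-- `Δ ≠ 0` and `gcd(c₄, Δ) = 1`: `W` is a global minimal equation of a semistable elliptic curve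
over `ℚ` -/
def Semistable (W : WeierstrassCurve ℤ) : Prop := W.Δ ≠ 0 ∧ IsCoprime W.c₄ W.Δ

/-- the radical, the product of the primes dividing `n` -/
def rad (n : ℕ) : ℕ := ∏ p ∈ n.primeFactors, p

/-- `N₆`, the prime-to-6 part of the conductor of a global minimal equation: the product over the
primes `p ≥ 5` dividing `Δ` of `p` (multiplicative reduction, `p ∤ c₄`) or `p²` (additive,
`p ∣ c₄`). It differs from the conductor by a factor which is at most `2 ^ 8 * 3 ^ 5`. -/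
def conductor6 (W : WeierstrassCurve ℤ) : ℕ :=
  ∏ p ∈ W.Δ.natAbs.primeFactors.filter (fun p => 5 ≤ p), if (p : ℤ) ∣ W.c₄ then p ^ 2 else p

/-- the naive height `max (|c₄|³, c₆²)` -/
noncomputable def height (W : WeierstrassCurve ℤ) : ℝ := max (|(W.c₄ : ℝ)| ^ 3) ((W.c₆ : ℝ) ^ 2)

/-- the signatures -/
def signatures : Finset (ℕ × ℕ) := {(3, 2), (4, 2), (6, 2), (3, 3), (4, 4), (6, 4), (6, 6)}

theorem to_SL {l : ℝ} (h0 : 0 ≤ l) (h6 : l ≤ 1 / 6) {p q N : ℕ} (hN : 1 ≤ N)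
    (hpq : (p, q) ∈ signatures) (h : Pool.Agent.N757.SC.OneCuspS l p q N) :
    Pool.Agent.N757.SC.SL l := by
  have hl1 : l ≤ 1 := by linarith
  simp only [signatures, Finset.mem_insert, Finset.mem_singleton, Prod.mk.injEq] at hpq
  rcases hpq with ⟨rfl, rfl⟩ | ⟨rfl, rfl⟩ | ⟨rfl, rfl⟩ | ⟨rfl, rfl⟩ | ⟨rfl, rfl⟩ | ⟨rfl, rfl⟩ | ⟨rfl, rfl⟩
  · exact Pool.Agent.N757.SC.bridgeS h0 h6 3 2 N (Pool.Agent.N757.SC.map32 h0 h6 N hN) h
  · exact Pool.Agent.N757.SC.bridgeS h0 h6 4 2 N (Pool.Agent.N757.SC.map42 h0 h6 N hN) h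
  · exact Pool.Agent.N757.SC.bridgeS h0 h6 6 2 N (Pool.Agent.N757.SC.map62 h0 h6 N hN) h
  · exact Pool.Agent.N757.SC.bridgeS h0 h6 3 3 N (Pool.Agent.N757.SC.map33 h0 h6 N hN) h
  · exact Pool.Agent.N757.SC.bridgeS h0 h6 4 4 N (Pool.Agent.N757.SC.map44 h0 h6 N hN) h
  · refine Pool.Agent.N757.SC.bridgeS h0 h6 3 2 N (Pool.Agent.N757.SC.map32 h0 h6 N hN) ?_
    exact Pool.Agent.N757.SC.oneCuspS_mul h0 hl1 2 3 2 N (by norm_num) (by norm_num) (by norm_num) h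
  · refine Pool.Agent.N757.SC.bridgeS h0 h6 3 3 N (Pool.Agent.N757.SC.map33 h0 h6 N hN) ?_
    exact Pool.Agent.N757.SC.oneCuspS_mul h0 hl1 2 3 3 N (by norm_num) (by norm_num) (by norm_num) h

theorem result (θ : ℝ) (hθ0 : 0 ≤ θ) (hθ1 : θ < 1) (κ : ℝ) (hκ0 : 0 < κ) (hκ1 : κ < 1)
    (p q : ℕ) (hpq : (p, q) ∈ signatures) (N : ℕ) (hN : 1 ≤ N) : List.TFAE [
      ∀ δ : ℝ, 0 < δ → ∃ K : ℝ, ∀ W : WeierstrassCurve ℤ, IsGlobalMinimal W →
        |(W.Δ : ℝ)| ^ (1 - θ) * height W ^ θ ≤ K * (conductor6 W : ℝ) ^ 6 * height W ^ δ,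
      ∀ ε : ℝ, 0 < ε → ∃ K : ℝ, ∀ W : WeierstrassCurve ℤ, Semistable W →
        height W ^ κ ≤ |(W.Δ : ℝ)| →
        |(W.Δ : ℝ)| ^ (1 - θ) * height W ^ θ ≤ K * (rad W.Δ.natAbs : ℝ) ^ (6 + ε),
      ∀ ε : ℝ, 0 < ε → ∃ K : ℝ, 0 < K ∧ ∀ x y : ℤ, IsCoprime x y → x ^ p ≠ y ^ q →
        (N : ℤ) ∣ x ^ p - y ^ q →
        K * (|(x : ℝ) ^ p - (y : ℝ) ^ q| ^ ((1 - θ) / 6) *
          (max (|(x : ℝ)| ^ p) (|(y : ℝ)| ^ q)) ^
            (1 - 1 / (p : ℝ) - 1 / (q : ℝ) - (1 - θ) / 6 - ε)) ≤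
          rad (x ^ p - y ^ q).natAbs] := by
  set l : ℝ := (1 - θ) / 6 with hl
  have hl0 : 0 ≤ l := by rw [hl]; linarith
  have hl6 : l ≤ 1 / 6 := by rw [hl]; linarith
  have hlθ : 6 * l = 1 - θ := by rw [hl]; ring
  have hpq6 : 1 ≤ p ∧ 1 ≤ q ∧ p ≤ 6 ∧ q ≤ 6 := by
    have hpq' := hpq
    simp only [signatures, Finset.mem_insert, Finset.mem_singleton, Prod.mk.injEq] at hpq'
    omega
  tfae_have 1 → 2 := by
    intro h ε hε
    have h' : Pool.Agent.N757.SZ.AllCurves θ := h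
    obtain ⟨K, hK⟩ := Pool.Agent.N757.SZ.up (κ := κ) hθ1.le (by nlinarith) h' ε hε
    refine ⟨max K 0, fun W hW hL => ?_⟩
    have h1 := hK W ⟨Pool.Agent.N757.SZ.minimal_of_coprime hW.1 hW.2, hL⟩
    have h2 : (Pool.Agent.N757.SZ.conductor6 W : ℝ) ≤ rad W.Δ.natAbs := by
      exact_mod_cast Pool.Agent.N757.SZ.conductor6_le hW.2
    calc |(W.Δ : ℝ)| ^ (1 - θ) * height W ^ θ
        ≤ K * (Pool.Agent.N757.SZ.conductor6 W : ℝ) ^ (6 + ε) := h1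
      _ ≤ max K 0 * (Pool.Agent.N757.SZ.conductor6 W : ℝ) ^ (6 + ε) :=
          mul_le_mul_of_nonneg_right (le_max_left _ _) (by positivity)
      _ ≤ max K 0 * (rad W.Δ.natAbs : ℝ) ^ (6 + ε) := by
          apply mul_le_mul_of_nonneg_left _ (le_max_right _ _)
          exact Real.rpow_le_rpow (by positivity) h2 (by linarith)
  tfae_have 2 → 3 := by
    intro h
    have h1 : Pool.Agent.N757.SZ.AbcT θ := by
      apply Pool.Agent.N757.SZ.down hθ0 hθ1.le hκ0.le hκ1 le_rfl le_rfl (n := 1) (N := 1)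
      intro ε hε
      obtain ⟨K, hK⟩ := h ε hε
      exact ⟨K, fun W hW => hK W ⟨hW.1, hW.2.1⟩ hW.2.2.1⟩
    have h2 := Pool.Agent.N757.SC.AbcT_to_SL hl0 hlθ h1
    exact Pool.Agent.N757.SC.SL_to_oneCuspS hl0 hl6 p q N hpq6.1 hpq6.2.1 hpq6.2.2.1 hpq6.2.2.2 h2
  tfae_have 3 → 1 := by
    intro h
    have h1 : Pool.Agent.N757.SC.SL l := to_SL hl0 hl6 hN hpq h
    exact (Pool.Agent.N757.SC.SL_to_AbcT hl0 hl6 hlθ h1).all hθ0 hθ1.le
  tfae_finish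

end Pool.Agent.Results.MP_d8bd92_nt.PowerDifferences
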