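import Pool.Agent.N757.RD.Point
import Pool.Agent.H437R2.Man.UpP1

/-!
# Reduction of the uniform abc conjecture to power-smooth points

The uniform abc conjecture asserts, in logarithmic form, that for every `ε > 0` there is `C` such that
`h(P) ≤ (1 + ε) (log δ_K + rad(P)) + C` for all number fields `K` and all points `P = (a : b : c)`
over `K` with `a + b + c = 0` and `abc ≠ 0`, where `h(P) = log H(a, b, c)`,
`rad(P) = log N(a, b, c)` and `δ_K` is the root discriminant. We prove that it is equivalent to its
restriction to a very thin set of points: the points such that, with given `η > 0` and `M, r ≥ 1`,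
* at every place of `K`, finite or infinite, all ratios of `‖a‖`, `‖b‖`, `‖c‖` (normalised such that
  `H(P)` is the product of the maxima) are at most `H(P) ^ η`; in particular, for all primes `𝔭`,
  the power of `𝔭` by which the coordinates differ has norm at most `H(P) ^ (η d)`,
* `- a / c` is an `r`-th power in `K`,
* the primes at which `a` and `c` have different valuations contribute at most `η h(P)` to
  `rad(P)`, and so do the primes whose norm is not congruent to one modulo `M`.

The field `K` does not change in the reduction and the constants do not depend on it; hence the same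
equivalence holds for every class of number fields (of given degree, totally real, and so on).

The proof applies to an arbitrary point `(x : 1 - x : -1)` maps of the projective line of bounded
degree `N`, defined over the rationals, which are unramified outside of `0, 1, ∞` and map these three
points to themselves: for them `h(f(x)) = N h(x) + O(1)` and
`rad(f(x)) ≤ rad(x) + (N - 1) h(x) + O(1)`, uniformly in `K`. The `m`-th power is taken three times,
with the cusps permuted in between, where `φ(m) / m` is small: as `1 - x ^ m` is a product of values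
of cyclotomic polynomials of degrees at most `φ(m)`, of which at most one is small at a given place,
this makes the coordinates power-smooth.
-/

set_option autoImplicit false

namespace Pool.Agent.Results.MP_6e34ef_nt.PowerSmoothUniform

open NumberField IsDedekindDomain

variable {K : Type} [Field K] [NumberField K]

/-- the height `h(P) = log H(P)` of the point `P` with coordinates `x` -/
noncomputable def height (x : Fin 3 → K) : ℝ :=
  (∑ w : InfinitePlace K, (w.mult : ℝ) * Real.log (max (w (x 0)) (max (w (x 1)) (w (x 2)))) +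
    ∑ᶠ v : HeightOneSpectrum (𝓞 K), Real.log
      (max (FinitePlace.mk v (x 0)) (max (FinitePlace.mk v (x 1)) (FinitePlace.mk v (x 2))))) /
    (Module.finrank ℚ K : ℝ)

/-- the part of the logarithm of the conductor of the point `P` with coordinates `x` which comes from
the primes in `A`: the sum of `log N(v) / d` over the primes `v ∈ A` at which the valuations of the
coordinates are not all equal -/
noncomputable def radOn (A : Set (HeightOneSpectrum (𝓞 K))) (x : Fin 3 → K) : ℝ :=
  (∑ᶠ (v : HeightOneSpectrum (𝓞 K)) (_ : v ∈ A ∧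
      ¬ (FinitePlace.mk v (x 0) = FinitePlace.mk v (x 1) ∧
        FinitePlace.mk v (x 1) = FinitePlace.mk v (x 2))),
    Real.log (Ideal.absNorm v.asIdeal : ℝ)) / (Module.finrank ℚ K : ℝ)

/-- `rad(P) = log N(P)`, where `N(P)` is the conductor -/
noncomputable def rad (x : Fin 3 → K) : ℝ := radOn Set.univ x

/-- `log δ_K`, where `δ_K` is the root discriminant of `K` -/
noncomputable def logRootDisc (K : Type) [Field K] [NumberField K] : ℝ :=
  Real.log |(discr K : ℝ)| / (Module.finrank ℚ K : ℝ)

/-- the points `P = (a : b : c)` of the abc conjecture: `a + b + c = 0` and `abc ≠ 0` -/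
def IsPoint (x : Fin 3 → K) : Prop := x 0 + x 1 + x 2 = 0 ∧ x 0 * x 1 * x 2 ≠ 0

/-- the special points: at all places the ratios of the (normalised) absolute values of the
coordinates are at most `H(P) ^ η`, that is, before the normalisation by the degree `d`, at most
`exp (η d h(P))`; `- x 0 / x 2` is an `r`-th power; and the primes at which `x 0` and `x 2` have
different valuations, as well as the primes of norm not congruent to one modulo `M`, contribute at
most `η h(P)` to `rad(P)` -/
structure IsSpecial (η : ℝ) (M r : ℕ) (x : Fin 3 → K) : Prop where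
  ratio_inf : ∀ (w : InfinitePlace K) (i j : Fin 3), w (x i) ^ w.mult ≤
    Real.exp (η * (Module.finrank ℚ K : ℝ) * height x) * w (x j) ^ w.mult
  ratio_fin : ∀ (v : HeightOneSpectrum (𝓞 K)) (i j : Fin 3), FinitePlace.mk v (x i) ≤
    Real.exp (η * (Module.finrank ℚ K : ℝ) * height x) * FinitePlace.mk v (x j)
  power : ∃ u : K, x 0 = -(u ^ r * x 2)
  small : radOn {v | FinitePlace.mk v (x 0) ≠ FinitePlace.mk v (x 2)} x ≤ η * height x
  norms : radOn {v | ¬ Ideal.absNorm v.asIdeal ≡ 1 [MOD M]} x ≤ η * height x

open Pool.Agent.N757.RD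

theorem height_eq (x : Fin 3 → K) : height x = H3 x / dg K := rfl

theorem height_mul (x : Fin 3 → K) : dg K * height x = H3 x := by
  rw [height_eq, mul_div_cancel₀ _ dg_pos.ne']

theorem radOn_mul {A : Set (HeightOneSpectrum (𝓞 K))} {x : Fin 3 → K} (hx : IsPoint x) :
    dg K * radOn A x = W (A ∩ I (yy x)) := by
  have e : radOn A x = W (A ∩ I (yy x)) / dg K := by
    rw [I_yy hx.1 hx.2]
    rfl
  rw [e, mul_div_cancel₀ _ dg_pos.ne']

theorem rad_mul {x : Fin 3 → K} (hx : IsPoint x) : dg K * rad x = R (yy x) := by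
  unfold rad
  rw [radOn_mul hx, Set.univ_inter]
  rfl

/-- the point with `- a / c = y` -/
def pt (y : K) : Fin 3 → K := ![y, 1 - y, -1]

omit [NumberField K] in
theorem isPoint_pt {y : K} (h0 : y ≠ 0) (h1 : y ≠ 1) : IsPoint (pt y) := by
  have h2 : (1 : K) - y ≠ 0 := sub_ne_zero.2 h1.symm
  refine ⟨?_, ?_⟩
  · simp [pt]
  · simp [pt, h0, h2]

omit [NumberField K] in
theorem yy_pt (y : K) : yy (pt y) = y := by simp [yy, pt]

theorem exp_bound {a b B : ℝ} {m : ℕ} (ha : 0 < a) (hb : 0 < b)
    (h : (m : ℝ) * Real.log a - m * Real.log b ≤ B) : a ^ m ≤ Real.exp B * b ^ m := by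
  have h1 : a ^ m = Real.exp (m * Real.log a) := by
    rw [← Real.log_pow, Real.exp_log (pow_pos ha m)]
  have h2 : b ^ m = Real.exp (m * Real.log b) := by
    rw [← Real.log_pow, Real.exp_log (pow_pos hb m)]
  rw [h1, h2, ← Real.exp_add]
  exact Real.exp_le_exp.2 (by linarith)

/-- the ratios of the coordinates of `pt y` -/
theorem ratio_pt {y : K} {B : ℝ} (hB : 0 ≤ B) (h : Sizes y B) (v : Pl K) (i j : Fin 3) :
    (mt v : ℝ) * Real.log (av v (pt y i)) - mt v * Real.log (av v (pt y j)) ≤ 2 * B := by
  obtain ⟨h1, h2, h3, h4⟩ := h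
  have g1 := h1 v
  have g2 := h2 v
  have g3 := h3 v
  have g4 := h4 v
  have e0 : pt y 0 = y := rfl
  have e1 : pt y 1 = 1 - y := rfl
  have e2 : pt y 2 = -1 := rfl
  have e3 : Real.log (av v (-1 : K)) = 0 := by rw [(av v).map_neg, (av v).map_one, Real.log_one]
  fin_cases i <;> fin_cases j <;>
    simp only [Fin.zero_eta, Fin.mk_one, Fin.reduceFinMk, e0, e1, e2, e3] <;> linarith

theorem special_pt {η : ℝ} {M r : ℕ} (hη : 0 < η) {y : K}
    (h0 : y ≠ 0) (h1 : y ≠ 1) (hres : Res' (η / 2) M r y) :
    IsSpecial η M r (pt y) := by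
  have hP := isPoint_pt h0 h1
  have hd := dg_pos (K := K)
  have hD := D_nonneg y
  have hb := (H3_bounds hP.1 hP.2).1
  rw [yy_pt] at hb
  have hdh : D y ≤ dg K * height (pt y) := by rw [height_mul]; exact hb
  have hne : ∀ i, pt y i ≠ 0 := by
    intro i
    have h2 : (1 : K) - y ≠ 0 := sub_ne_zero.2 h1.symm
    fin_cases i
    · exact h0
    · exact h2
    · exact neg_ne_zero.2 one_ne_zero
  have hB : 2 * (η / 2 * D y) ≤ η * dg K * height (pt y) := by
    have := mul_le_mul_of_nonneg_left hdh hη.le
    linarith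
  have hB0 : 0 ≤ η / 2 * D y := by positivity
  have hconv : ∀ {A : Set (HeightOneSpectrum (𝓞 K))}, W (A ∩ I y) ≤ η / 2 * D y →
      radOn A (pt y) ≤ η * height (pt y) := by
    intro A hA
    have e := radOn_mul (A := A) hP
    rw [yy_pt] at e
    have h2 : dg K * radOn A (pt y) ≤ dg K * (η * height (pt y)) := by
      rw [e]
      have := mul_le_mul_of_nonneg_left hdh hη.le
      linarith
    exact le_of_mul_le_mul_left h2 hd
  have e2 : pt y 2 = -1 := rfl
  refine ⟨?_, ?_, ?_, ?_, ?_⟩
  · intro w i j
    refine exp_bound (w.pos_iff.2 (hne i)) (w.pos_iff.2 (hne j)) ?_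
    exact (ratio_pt hB0 hres.sizes (.inl w) i j).trans hB
  · intro v i j
    have h2 := exp_bound (m := 1) (FinitePlace.pos_iff.2 (hne i)) (FinitePlace.pos_iff.2 (hne j))
      ((ratio_pt hB0 hres.sizes (.inr v) i j).trans hB)
    rwa [pow_one, pow_one] at h2
  · obtain ⟨u, hu⟩ := hres.pow
    refine ⟨u, ?_⟩
    rw [e2, ← hu]
    simp [pt]
  · apply hconv
    have e : {v : HeightOneSpectrum (𝓞 K) | FinitePlace.mk v (pt y 0) ≠ FinitePlace.mk v (pt y 2)} =
        supp y := by
      rw [← supp_yy hP.2, yy_pt]
    rw [e]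
    exact (W_mono Set.inter_subset_left (finite_ne_one h0)).trans hres.supp
  · apply hconv
    refine (W_mono ?_ ?_).trans hres.bad
    · rintro v ⟨hv1, hv2⟩
      refine ⟨hv2, fun h => hv1 ?_⟩
      have h3 : 1 ≤ Ideal.absNorm v.asIdeal := (HeightOneSpectrum.one_lt_absNorm v).le
      exact ((Nat.modEq_iff_dvd' h3).2 h).symm
    · exact (finite_I h0 h1).subset fun v hv => hv.1

/-- the special points of height `H(P) = exp h(P)` at most `B` -/
def SpecialPoints (K : Type) [Field K] [NumberField K] (η : ℝ) (M r : ℕ) (B : ℝ) :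
    Set (Projectivization K (Fin 3 → K)) :=
  {P | ∃ (x : Fin 3 → K) (hx : x ≠ 0), P = Projectivization.mk K x hx ∧ IsPoint x ∧
    IsSpecial η M r x ∧ Real.exp (height x) ≤ B}

/-- few numbers of bounded height -/
theorem count_K (K : Type) [Field K] [NumberField K] : ∃ C : ℝ, 0 ≤ C ∧ ∀ A : ℝ, 0 ≤ A →
    {u : K | D u ≤ A}.Finite ∧ ({u : K | D u ≤ A}.ncard : ℝ) ≤ C * Real.exp (2 * A) := by
  classical
  obtain ⟨C, hC, h⟩ := Pool.Agent.H437R2.Man.count_P1 K
  refine ⟨C, hC, fun A hA => ?_⟩
  have hfin : {u : K | D u ≤ A}.Finite := NumberField.finite_setOfPred_logHeight₁_le K A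
  refine ⟨hfin, ?_⟩
  have hv : ∀ u : K, (![u, 1] : Fin 2 → K) ≠ 0 := fun u h' => one_ne_zero (congrFun h' 1)
  set f : K → Projectivization K (Fin 2 → K) := fun u => Projectivization.mk K ![u, 1] (hv u)
    with hf
  have hinj : Function.Injective f := by
    intro u u' huu
    simp only [hf] at huu
    rw [Projectivization.mk_eq_mk_iff'] at huu
    obtain ⟨a, ha⟩ := huu
    have h1 := congrFun ha 1
    have h0 := congrFun ha 0
    simp only [Pi.smul_apply, smul_eq_mul, Matrix.cons_val_zero, Matrix.cons_val_one,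
      Matrix.cons_val_fin_one, mul_one] at h0 h1
    rw [h1, one_mul] at h0
    exact h0.symm
  have h1 := h (hfin.toFinset.image f) (Real.exp A) (Real.one_le_exp hA) ?_
  · rw [Finset.card_image_of_injective _ hinj] at h1
    rw [Set.ncard_eq_toFinset_card _ hfin]
    refine h1.trans (le_of_eq ?_)
    rw [← Real.exp_nat_mul]
    norm_num
  · intro p hp
    rw [Finset.mem_image] at hp
    obtain ⟨u, hu, rfl⟩ := hp
    rw [Set.Finite.mem_toFinset] at hu
    simp only [hf]
    rw [Projectivization.mulHeight_mk, ← Height.mulHeight₁_eq_mulHeight]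
    have h2 : Real.log (Height.mulHeight₁ u) ≤ A := hu
    rw [← Real.exp_log (Height.mulHeight₁_pos u)]
    exact Real.exp_le_exp.2 h2

theorem count_special (K : Type) [Field K] [NumberField K] : ∃ C : ℝ, 0 ≤ C ∧
    ∀ (η : ℝ) (M r : ℕ), 0 < r → ∀ B : ℝ, 1 ≤ B →
      (SpecialPoints K η M r B).Finite ∧ ((SpecialPoints K η M r B).ncard : ℝ) ≤
        C * B ^ (2 * (Module.finrank ℚ K : ℝ) / r) := by
  classical
  obtain ⟨C, hC, h⟩ := count_K K
  refine ⟨C, hC, fun η M r hr B hB => ?_⟩
  have hd := dg_pos (K := K)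
  have hr0 : (0 : ℝ) < r := by exact_mod_cast hr
  have hB0 : 0 < B := by linarith
  have hlogB : 0 ≤ Real.log B := Real.log_nonneg hB
  obtain ⟨hfin, hcard⟩ := h (dg K / r * Real.log B) (by positivity)
  have hz : ∀ u : K, (![-u ^ r, u ^ r - 1, 1] : Fin 3 → K) ≠ 0 := fun u h' =>
    one_ne_zero (congrFun h' 2)
  have hsub : SpecialPoints K η M r B ⊆
      (fun u : K => Projectivization.mk K ![-u ^ r, u ^ r - 1, 1] (hz u)) ''
        {u : K | D u ≤ dg K / r * Real.log B} := by
    rintro P ⟨x, hx, rfl, hP, hs, hB'⟩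
    obtain ⟨u, hu⟩ := hs.power
    have h2 : x 2 ≠ 0 := fun h' => hP.2 (by rw [h']; ring)
    have hyy : yy x = u ^ r := by
      unfold yy
      rw [hu]
      field_simp
    refine ⟨u, ?_, ?_⟩
    · have h3 := (H3_bounds hP.1 hP.2).1
      rw [hyy, D_pow, ← height_mul] at h3
      have h4 : height x ≤ Real.log B := by
        rw [← Real.log_exp (height x)]
        exact Real.log_le_log (Real.exp_pos _) hB'
      have h5 : (r : ℝ) * D u ≤ dg K * Real.log B :=
        h3.trans (mul_le_mul_of_nonneg_left h4 hd.le)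
      change D u ≤ dg K / r * Real.log B
      rw [div_mul_eq_mul_div, le_div_iff₀ hr0]
      linarith
    · rw [Projectivization.mk_eq_mk_iff']
      refine ⟨(x 2)⁻¹, ?_⟩
      have h1' : x 1 = -x 0 - x 2 := by linear_combination hP.1
      funext i
      fin_cases i
      · change (x 2)⁻¹ * x 0 = -u ^ r
        rw [hu]
        field_simp
      · change (x 2)⁻¹ * x 1 = u ^ r - 1
        rw [h1', hu]
        field_simp
      · change (x 2)⁻¹ * x 2 = 1
        exact inv_mul_cancel₀ h2
  have hfin2 := (hfin.image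
    (fun u : K => Projectivization.mk K ![-u ^ r, u ^ r - 1, 1] (hz u))).subset hsub
  refine ⟨hfin2, ?_⟩
  have h3 : (SpecialPoints K η M r B).ncard ≤ {u : K | D u ≤ dg K / r * Real.log B}.ncard :=
    (Set.ncard_le_ncard hsub (hfin.image _)).trans (Set.ncard_image_le hfin)
  calc ((SpecialPoints K η M r B).ncard : ℝ)
      ≤ ({u : K | D u ≤ dg K / r * Real.log B}.ncard : ℝ) := by exact_mod_cast h3
    _ ≤ C * Real.exp (2 * (dg K / r * Real.log B)) := hcard
    _ = C * B ^ (2 * (Module.finrank ℚ K : ℝ) / r) := by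
        rw [Real.rpow_def_of_pos hB0]
        have e : 2 * (dg K / r * Real.log B) =
            Real.log B * (2 * (Module.finrank ℚ K : ℝ) / r) := by
          unfold dg
          ring
        rw [e]

/-- the assertion of the uniform abc conjecture for the number fields in the class `F` and the points
with the property `Q` -/
def UniformAbc (F : (K : Type) → [Field K] → [NumberField K] → Prop)
    (Q : (K : Type) → [Field K] → [NumberField K] → (Fin 3 → K) → Prop) : Prop :=
  ∀ ε : ℝ, 0 < ε → ∃ C : ℝ, ∀ (K : Type) [Field K] [NumberField K], F K →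
    ∀ x : Fin 3 → K, IsPoint x → Q K x → height x ≤ (1 + ε) * (logRootDisc K + rad x) + C

theorem logRootDisc_nonneg (K : Type) [Field K] [NumberField K] : 0 ≤ logRootDisc K := by
  unfold logRootDisc
  refine div_nonneg (Real.log_nonneg ?_) (Nat.cast_nonneg _)
  have h := NumberField.discr_ne_zero K
  exact_mod_cast Int.one_le_abs h

/-- **Reduction of the uniform abc conjecture.** Let `η > 0` be real and `M, r ≥ 1` integers.
(1) For every `ε > 0` there is `ε' > 0` such that for every `C'` there is `C` with the following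
property: if `K` is a number field such that `h(P) ≤ (1 + ε') (log δ_K + rad(P)) + C'` for all special
points `P` over `K`, then `h(P) ≤ (1 + ε) (log δ_K + rad(P)) + C` for all points `P` over `K`.
(2) For every class of number fields, the uniform abc conjecture for the fields of the class is
equivalent to its restriction to the special points.
(3) For every number field `K` of degree `d`, at most `C B ^ (2 d / r)` special points over `K` have
height `H(P) ≤ B`, where `C` depends on `K` only. -/
theorem result (η : ℝ) (M r : ℕ) (hη : 0 < η) (hM : 0 < M) (hr : 0 < r) :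
    (∀ ε : ℝ, 0 < ε → ∃ ε' : ℝ, 0 < ε' ∧ ∀ C' : ℝ, ∃ C : ℝ,
      ∀ (K : Type) [Field K] [NumberField K],
        (∀ x : Fin 3 → K, IsPoint x → IsSpecial η M r x →
          height x ≤ (1 + ε') * (logRootDisc K + rad x) + C') →
        ∀ x : Fin 3 → K, IsPoint x → height x ≤ (1 + ε) * (logRootDisc K + rad x) + C) ∧
    (∀ F : (K : Type) → [Field K] → [NumberField K] → Prop,
      UniformAbc F (fun _ _ _ _ => True) ↔ UniformAbc F (fun _ _ _ x => IsSpecial η M r x)) ∧
    ∀ (K : Type) [Field K] [NumberField K], ∃ C : ℝ, ∀ (η' : ℝ) (M' r' : ℕ), 0 < r' →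
      ∀ B : ℝ, 1 ≤ B → (SpecialPoints K η' M' r' B).Finite ∧
        ((SpecialPoints K η' M' r' B).ncard : ℝ) ≤
          C * B ^ (2 * (Module.finrank ℚ K : ℝ) / r') := by
  classical
  have part1 : ∀ ε : ℝ, 0 < ε → ∃ ε' : ℝ, 0 < ε' ∧ ∀ C' : ℝ, ∃ C : ℝ,
      ∀ (K : Type) [Field K] [NumberField K],
        (∀ x : Fin 3 → K, IsPoint x → IsSpecial η M r x →
          height x ≤ (1 + ε') * (logRootDisc K + rad x) + C') →
        ∀ x : Fin 3 → K, IsPoint x → height x ≤ (1 + ε) * (logRootDisc K + rad x) + C := by
    intro ε hε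
    obtain ⟨ε', hε', h⟩ := reduce_uniform ε (η / 2) hε (by positivity) M r hM hr
    refine ⟨ε', hε', fun C' => ?_⟩
    obtain ⟨C, hC⟩ := h C'
    refine ⟨C + Real.log 2, ?_⟩
    intro K _ _ hyp x hx
    have hd := dg_pos (K := K)
    have hl := logRootDisc_nonneg K
    have h2 := hC K (dg K * logRootDisc K) (mul_nonneg hd.le hl) ?_ (yy x) (yy_ne_zero hx.2)
      (yy_ne_one hx.1 hx.2)
    · have h3 := (H3_bounds hx.1 hx.2).2
      rw [← height_mul, ← rad_mul hx] at *
      have h4 : dg K * height x ≤
          dg K * ((1 + ε) * (logRootDisc K + rad x) + (C + Real.log 2)) := by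
        nlinarith
      exact le_of_mul_le_mul_left h4 hd
    · intro y y0 y1 hres
      have hP := isPoint_pt y0 y1
      have h3 := hyp (pt y) hP (special_pt hη y0 y1 hres)
      have h4 := (H3_bounds hP.1 hP.2).1
      have h5 := rad_mul hP
      rw [← height_mul] at h4
      rw [yy_pt] at h4 h5
      have h6 := mul_le_mul_of_nonneg_left h3 hd.le
      rw [← h5]
      nlinarith
  refine ⟨part1, fun F => ⟨fun h ε hε => ?_, fun h ε hε => ?_⟩, fun K _ _ => ?_⟩
  · obtain ⟨C, hC⟩ := h ε hε
    exact ⟨C, fun K _ _ hF x hx _ => hC K hF x hx trivial⟩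
  · obtain ⟨ε', hε', h1⟩ := part1 ε hε
    obtain ⟨C', hC'⟩ := h ε' hε'
    obtain ⟨C, hC⟩ := h1 C'
    exact ⟨C, fun K _ _ hF x hx _ => hC K (fun x' hx' hs => hC' K hF x' hx' hs) x hx⟩
  · obtain ⟨C₀, -, hcount⟩ := count_special K
    exact ⟨C₀, fun η' M' r' hr' B hB => hcount η' M' r' hr' B hB⟩

end Pool.Agent.Results.MP_6e34ef_nt.PowerSmoothUniform
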