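import Pool.Agent.N757.TL.Fin

/-!
# The abc conjecture over a number field and the line minus `∞`, `√D`, `-√D`

Let `K` be a number field and `D = m z²`, where `m` is an odd integer and `z ∈ K` is not zero. The abc
conjecture over `K` (all `ε`) is equivalent to the inequality
`h(x) < (1 + ε) rad_D(x) + C` for all `x ∈ K` with `x² ≠ D`, where `rad_D(x)` is the normalised sum of
`log N(v)` over the primes `v` with `|x|_v > 1` or `|x² - D|_v < 1`, and it is enough to have this for
the `x` which are close to `∞` at all infinite places and at a given finite set of primes.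

Over `ℚ` the inequality says that `rad (y (x² - D y²)) ≥ c max (|x|, |y|) ^ (1 - ε)` for coprime
integers `x, y`: the abc conjecture is equivalent to this inequality for a single cubic form
`y (x² - D y²)`, for example with `D = 5`, or `D = - 7`.

Proof. One needs maps of the projective line to itself, defined over `ℚ`, which are unramified outside
of the points over `∞, ± √m` and map three rational points to `∞`. Let `m = ± (4 e + 1)` or
`± (4 e - 1)`, `κ = (|m| ± 1) / 2` and `w² = x² - m`. The map is `x ↦ F / G`, where `F + V w` is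
`(x + w) ^ κ (2 e x - κ w) ^ (2 e)` and `G = m ^ ((κ - 1) / 2) ((4 e² - κ²) x² + κ² m) ^ e`: by the
norm `F² - m G² = (x² - m) V²`, and `x² - m` divides `V`. The poles are `∞` and `± κ` or `± κ √(-1)`.
In the second case one composes with `(x⁴ - 6 x² + 1) / (4 x³ - 4 x)`.
-/

set_option autoImplicit false

namespace Pool.Agent.Results.MP_a793bb_nt.TwistedLine

open NumberField IsDedekindDomain

variable {K : Type} [Field K] [NumberField K]

/-- the height `h(P)` of the point `P` with coordinates `x` -/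
noncomputable def height (x : Fin 3 → K) : ℝ :=
  (∑ w : InfinitePlace K, (w.mult : ℝ) * Real.log (max (w (x 0)) (max (w (x 1)) (w (x 2)))) +
    ∑ᶠ v : HeightOneSpectrum (𝓞 K), Real.log
      (max (FinitePlace.mk v (x 0)) (max (FinitePlace.mk v (x 1)) (FinitePlace.mk v (x 2))))) /
    (Module.finrank ℚ K : ℝ)

/-- the radical `rad(P)` of the point `P` with coordinates `x`: the sum of `log N(v) / d` over the
primes `v` at which the valuations of the coordinates are not all equal -/
noncomputable def rad (x : Fin 3 → K) : ℝ :=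
  (∑ᶠ (v : HeightOneSpectrum (𝓞 K)) (_ : ¬ (FinitePlace.mk v (x 0) = FinitePlace.mk v (x 1) ∧
        FinitePlace.mk v (x 1) = FinitePlace.mk v (x 2))),
    Real.log (Ideal.absNorm v.asIdeal : ℝ)) / (Module.finrank ℚ K : ℝ)

/-- the points `P = (a : b : c)` of the abc conjecture: `a + b + c = 0` and `abc ≠ 0` -/
def IsPoint (x : Fin 3 → K) : Prop := x 0 + x 1 + x 2 = 0 ∧ x 0 * x 1 * x 2 ≠ 0

/-- the abc conjecture over `K` -/
def Abc (K : Type) [Field K] [NumberField K] : Prop :=
  ∀ ε : ℝ, 0 < ε → ∃ C : ℝ, ∀ x : Fin 3 → K, IsPoint x → height x < (1 + ε) * rad x + C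

/-- the height `h(x)` of a number, that is of the point `(x : 1)` -/
noncomputable def heightOf (x : K) : ℝ :=
  (∑ w : InfinitePlace K, (w.mult : ℝ) * Real.log (max 1 (w x)) +
    ∑ᶠ v : HeightOneSpectrum (𝓞 K), Real.log (max 1 (FinitePlace.mk v x))) /
    (Module.finrank ℚ K : ℝ)

/-- the radical of `x` with respect to the points `∞, √D, -√D`: the sum of `log N(v) / d` over the
primes `v` with `|x|_v > 1` or `|x² - D|_v < 1` -/
noncomputable def radOf (D x : K) : ℝ :=
  (∑ᶠ (v : HeightOneSpectrum (𝓞 K)) (_ : 1 < FinitePlace.mk v x ∨ FinitePlace.mk v (x ^ 2 - D) < 1),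
    Real.log (Ideal.absNorm v.asIdeal : ℝ)) / (Module.finrank ℚ K : ℝ)

/-- the inequality of the abc conjecture for the points `∞, √D, -√D` in place of `0, 1, ∞`, for the
`x ∈ K` with the property `Q` -/
def Twisted (D : K) (Q : K → Prop) : Prop :=
  ∀ ε : ℝ, 0 < ε → ∃ C : ℝ, ∀ x : K, x ^ 2 ≠ D → Q x → heightOf x < (1 + ε) * radOf D x + C

/-- `x` is close to `∞` at the infinite places and at the primes of `T` -/
def Close (T : Set (HeightOneSpectrum (𝓞 K))) (δ : ℝ) (x : K) : Prop :=
  (∀ w : InfinitePlace K, 1 ≤ δ * w x) ∧ ∀ v ∈ T, 1 ≤ δ * FinitePlace.mk v x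

open Pool.Agent.N757.RD Pool.Agent.N757.TL

theorem height_mul (x : Fin 3 → K) : dg K * height x = H3 x := by
  rw [show height x = H3 x / dg K from rfl, mul_div_cancel₀ _ dg_pos.ne']

theorem rad_mul {x : Fin 3 → K} (hx : IsPoint x) : dg K * rad x = R (yy x) := by
  have e : rad x = R (yy x) / dg K := by
    unfold R
    rw [I_yy hx.1 hx.2]
    rfl
  rw [e, mul_div_cancel₀ _ dg_pos.ne']

theorem heightOf_mul (x : K) : dg K * heightOf x = D x := by
  have e : heightOf x = D x / dg K := by
    unfold heightOf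
    rw [D_eq]
    have h1 : ∀ w : InfinitePlace K, Real.log (max 1 (w x)) = Real.posLog (w x) := fun w =>
      log_max_one _ (apply_nonneg _ _)
    have h2 : ∀ v : HeightOneSpectrum (𝓞 K), Real.log (max 1 (FinitePlace.mk v x)) =
        Real.posLog (FinitePlace.mk v x) := fun v => log_max_one _ (apply_nonneg _ _)
    simp only [h1, h2]
    rfl
  rw [e, mul_div_cancel₀ _ dg_pos.ne']

theorem radOf_mul (c x : K) : dg K * radOf c x = W (IK c x) := by
  rw [show radOf c x = W (IK c x) / dg K from rfl, mul_div_cancel₀ _ dg_pos.ne']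

theorem abc_iff : Abc K ↔ ABC K := by
  have hd := dg_pos (K := K)
  constructor
  · intro h ε hε
    obtain ⟨C, hC⟩ := h ε hε
    refine ⟨dg K * C, fun y hy => ?_⟩
    have h2 : (1 : K) - y ≠ 0 := sub_ne_zero.2 hy.2.symm
    have hP : IsPoint (![y, 1 - y, -1] : Fin 3 → K) := ⟨by simp, by simp [hy.1, h2]⟩
    have hyy : yy (![y, 1 - y, -1] : Fin 3 → K) = y := by simp [yy]
    have h3 := hC _ hP
    have h4 := (H3_bounds hP.1 hP.2).1
    have h5 := rad_mul hP
    rw [← height_mul, hyy] at h4
    rw [hyy] at h5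
    have h6 := mul_lt_mul_of_pos_left h3 hd
    rw [← h5]
    nlinarith
  · intro h ε hε
    obtain ⟨C, hC⟩ := h ε hε
    refine ⟨C / dg K + Real.log 2 + 1, fun x hx => ?_⟩
    have h2 := hC (yy x) ⟨yy_ne_zero hx.2, yy_ne_one hx.1 hx.2⟩
    have h3 := (H3_bounds hx.1 hx.2).2
    rw [← height_mul] at h3
    rw [← rad_mul hx] at h2
    have h4 : dg K * height x ≤ dg K * ((1 + ε) * rad x + (C / dg K + Real.log 2)) := by
      have e : dg K * (C / dg K) = C := by field_simp
      nlinarith
    have h5 := le_of_mul_le_mul_left h4 hd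
    linarith

/-- the places -/
noncomputable def places {T : Set (HeightOneSpectrum (𝓞 K))} (hT : T.Finite) : Finset (Pl K) :=
  (Finset.univ : Finset (InfinitePlace K)).disjSum hT.toFinset

theorem close_iff {T : Set (HeightOneSpectrum (𝓞 K))} (hT : T.Finite) (δ : ℝ) (x : K) :
    Close T δ x ↔ ∀ v ∈ places hT, 1 ≤ δ * av v x := by
  constructor
  · rintro ⟨h1, h2⟩ v hv
    rcases v with w | p
    · exact h1 w
    · exact h2 p (hT.mem_toFinset.1 (Finset.inr_mem_disjSum.1 hv))
  · intro h
    exact ⟨fun w => h (.inl w) (Finset.inl_mem_disjSum.2 (Finset.mem_univ w)),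
      fun v hv => h (.inr v) (Finset.inr_mem_disjSum.2 (hT.mem_toFinset.2 hv))⟩

theorem result (K : Type) [Field K] [NumberField K] (m : ℤ) (hm : Odd m) (z : K) (hz : z ≠ 0)
    (T : Set (HeightOneSpectrum (𝓞 K))) (hT : T.Finite) (δ : ℝ) (hδ : 0 < δ) :
    List.TFAE [
      Abc K,
      Twisted ((m : K) * z ^ 2) (fun _ => True),
      Twisted ((m : K) * z ^ 2) (Close T δ)] := by
  have hd := dg_pos (K := K)
  have hm0 : (m : K) ≠ 0 := by
    have : m ≠ 0 := by rintro rfl; exact absurd hm (by decide)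
    exact_mod_cast this
  tfae_have 1 → 2 := by
    intro h ε hε
    have h1 : TW ((m : K) * z ^ 2) ∅ 1 :=
      ABC_to_TW (mul_ne_zero hm0 (pow_ne_zero 2 hz)) ∅ 1 (abc_iff.1 h)
    obtain ⟨C, hC⟩ := h1 ε hε
    refine ⟨C / dg K + 1, fun x hx _ => ?_⟩
    have h2 := hC x ⟨hx, fun v hv => absurd hv (Finset.notMem_empty v)⟩
    rw [← heightOf_mul, ← radOf_mul] at h2
    have h4 : dg K * heightOf x ≤ dg K * ((1 + ε) * radOf ((m : K) * z ^ 2) x + C / dg K) := by
      have e : dg K * (C / dg K) = C := by field_simp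
      nlinarith
    have h5 := le_of_mul_le_mul_left h4 hd
    linarith
  tfae_have 2 → 3 := by
    intro h ε hε
    obtain ⟨C, hC⟩ := h ε hε
    exact ⟨C, fun x hx _ => hC x hx trivial⟩
  tfae_have 3 → 1 := by
    intro h
    rw [abc_iff]
    refine main hm hz (places hT) ?_
    rw [mul_comm]
    refine ⟨δ, hδ, fun ε hε => ?_⟩
    obtain ⟨C, hC⟩ := h ε hε
    refine ⟨dg K * C, ?_⟩
    rintro x ⟨hx, hn⟩
    have h2 := hC x hx ((close_iff hT δ x).2 hn)
    have h3 := mul_lt_mul_of_pos_left h2 hd
    rw [← heightOf_mul, ← radOf_mul]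
    nlinarith
  tfae_finish

end Pool.Agent.Results.MP_a793bb_nt.TwistedLine
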